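import Pool.Agent.helper17.MK.Spec

/-!
# Row mk:MM: the main term of the weights `lM`
-/

set_option autoImplicit false

namespace Pool.Agent.MK

open Finset Real Pool.Agent.helper39.MT Pool.Agent.helper85.FC

theorem MM_mem {w z : ℝ} (hz : 0 ≤ z) (p : ℕ) :
    p ∈ RLS.PP w z ↔ (p : ℝ) ≤ z ∧ p.Prime ∧ w < (p : ℝ) := by
  unfold RLS.PP
  rw [mem_filter, mem_range, Nat.lt_add_one_iff, Nat.le_floor_iff hz]

theorem MM_filter1 {w z y : ℝ} (hz : 0 ≤ z) (hzy : z ≤ y) :
    (RLS.PP w y).filter (fun p : ℕ => (p : ℝ) ≤ z) = RLS.PP w z := by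
  ext p
  rw [mem_filter, MM_mem (hz.trans hzy), MM_mem hz]
  constructor
  · rintro ⟨⟨_, h2, h3⟩, h4⟩
    exact ⟨h4, h2, h3⟩
  · rintro ⟨h4, h2, h3⟩
    exact ⟨⟨h4.trans hzy, h2, h3⟩, h4⟩

theorem MM_filter2 {w z y : ℝ} (hy : 0 ≤ y) (hwz : w ≤ z) :
    (RLS.PP w y).filter (fun p : ℕ => z < (p : ℝ)) = RLS.PP z y := by
  ext p
  rw [mem_filter, MM_mem hy, MM_mem hy]
  constructor
  · rintro ⟨⟨h1, h2, _⟩, h4⟩
    exact ⟨h1, h2, h4⟩
  · rintro ⟨h1, h2, h4⟩
    exact ⟨⟨h1, h2, hwz.trans_lt h4⟩, h4⟩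

theorem MM_Mn (b : Bool) (L : ℝ) (P : Finset ℕ) :
    Mn (RLS.lam b L) gi P = RLS.SS b (fun p : ℕ => 1 / (p : ℝ)) L P := rfl

/-- the final computation -/
theorem MM_num {A e lw L lz Fs I Q T ep C : ℝ} (hA : 3 ≤ A) (he : 0 < e) (hL : 0 < L)
    (hlw : 0 < lw) (hlz : lz = 25 / 76 * L)
    (hlz2 : 2 * C / e ≤ lz) (hF : 76 / 25 * Fs ≤ A * (1 + 1 / 2500)) (hep : ep = e / 4)
    (hI : A * (38 / 100000) ≤ I) (hT : I - C / lz ≤ T) (hQ : Q ≤ 1) :
    lw / lz * (Fs + ep) - 1 / 2 * (lw / lz * (T - ep * Q)) ≤ A * (lw / L) * (1 - 1 / 6000 + e) := by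
  have hlz0 : 0 < lz := by rw [hlz]; positivity
  have h1 : C / lz ≤ e / 2 := by
    rw [div_le_iff₀ hlz0]
    rw [div_le_iff₀ he] at hlz2
    linarith
  have h2 : lw / lz = 76 / 25 * (lw / L) := by
    rw [hlz]
    field_simp
  have hx : 0 < lw / L := div_pos hlw hL
  have h3 : lw / lz * (Fs + ep) - 1 / 2 * (lw / lz * (T - ep * Q))
      = (lw / L) * (76 / 25 * Fs + 76 / 25 * ep - 1 / 2 * (76 / 25) * T + 1 / 2 * (76 / 25) * (ep * Q)) := by
    rw [h2]; ring
  have h4 : A * (lw / L) * (1 - 1 / 6000 + e) = (lw / L) * (A * (1 - 1 / 6000 + e)) := by ring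
  rw [h3, h4]
  apply mul_le_mul_of_nonneg_left _ hx.le
  have h5 : ep * Q ≤ ep := by
    have : 0 < ep := by rw [hep]; positivity
    nlinarith
  have h6 : A * (38 / 100000) - e / 2 ≤ T := by linarith
  have h7 : 3 * e ≤ A * e := mul_le_mul_of_nonneg_right hA he.le
  have h8 : A * (1 - 1 / 6000 + e) = A - A / 6000 + A * e := by ring
  have h9 : A * (1 + 1 / 2500) = A + A / 2500 := by ring
  rw [h8]
  rw [h9] at hF
  nlinarith

theorem MM (h1 : PM_stmt) (h2 : MP_stmt) (h3 : NU_stmt) : MM_stmt := by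
  intro u A F f hu hD e he
  obtain ⟨C, hC, hPM⟩ := h1
  obtain ⟨hN1, hN2⟩ := h3 u A F f hu hD
  obtain ⟨w₁, hw₁, hGEN⟩ := RLS.GEN_all u A F f hu hD (e / 4) (by positivity)
  -- threshold
  refine ⟨max w₁ (Real.exp (2 * C + 2 * C / e + 1)), hw₁.trans (le_max_left _ _), ?_⟩
  intro w L hw h4 hLu
  have hww : w₁ ≤ w := (le_max_left _ _).trans hw
  have hw2 : 2 ≤ w := hw₁.trans hww
  have hw0 : 0 < w := by linarith
  have hexp : Real.exp (2 * C + 2 * C / e + 1) ≤ w := (le_max_right _ _).trans hw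
  have hlogw : 2 * C + 2 * C / e + 1 ≤ Real.log w := by
    rw [Real.le_log_iff_exp_le hw0]; exact hexp
  have hCe : 0 < 2 * C / e := by positivity
  have hlw : 0 < Real.log w := by linarith
  have hL : 0 < L := by linarith
  set z : ℝ := Real.exp (25 / 76 * L) with hz
  set y : ℝ := Real.exp (13 / 38 * L) with hy
  have hlz : Real.log z = 25 / 76 * L := by rw [hz, Real.log_exp]
  have hly : Real.log y = 13 / 38 * L := by rw [hy, Real.log_exp]
  have hz0 : 0 < z := Real.exp_pos _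
  have hy0 : 0 < y := Real.exp_pos _
  have hzy : z ≤ y := Real.exp_le_exp.mpr (by linarith)
  have hwz : w ≤ z := by
    rw [← Real.exp_log hw0, hz]
    exact Real.exp_le_exp.mpr (by linarith)
  have hz2 : 2 ≤ z := hw2.trans hwz
  have hlz0 : 0 < Real.log z := by rw [hlz]; positivity
  have hlogz : 2 * C + 2 * C / e + 1 ≤ Real.log z := by
    have : Real.log w ≤ Real.log z := Real.log_le_log hw0 hwz
    linarith
  have hDu : Real.exp L ≤ w ^ u := by
    rw [Real.rpow_def_of_pos hw0]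
    exact Real.exp_le_exp.mpr (by linarith)
  -- the first term
  have hS1 : RLS.SS true (fun p : ℕ => 1 / (p : ℝ)) L (RLS.PP w z)
      ≤ Real.log w / Real.log z * (F (76 / 25) + e / 4) := by
    have h5 := (hGEN w z (Real.exp L) hww hwz hDu).1
      (Real.exp_le_exp.mpr (by linarith))
    rw [Real.log_exp L] at h5
    have h6 : L / Real.log z = 76 / 25 := by
      rw [hlz]; field_simp
    rw [h6] at h5
    exact h5
  -- the terms with one prime
  have hmem : ∀ p ∈ RLS.PP z y, z < (p : ℝ) ∧ (p : ℝ) ≤ y ∧ Real.log z ≤ Real.log (p : ℝ) ∧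
      Real.log (p : ℝ) ≤ Real.log y := by
    intro p hp
    obtain ⟨h5, _, h6⟩ := (MM_mem hy0.le p).mp hp
    exact ⟨h6, h5, Real.log_le_log hz0 h6.le, Real.log_le_log (hz0.trans h6) h5⟩
  have hS2 : ∀ p ∈ RLS.PP z y, Real.log w / Real.log z *
      (f ((L - Real.log (p : ℝ)) / Real.log z) - e / 4) ≤
      RLS.SS false (fun p : ℕ => 1 / (p : ℝ)) (L - Real.log (p : ℝ)) (RLS.PP w z) := by
    intro p hp
    obtain ⟨h5, h6, h7, h8⟩ := hmem p hp
    have h9 : Real.exp (L - Real.log (p : ℝ)) ≤ w ^ u :=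
      (Real.exp_le_exp.mpr (by linarith)).trans hDu
    have h10 : z ^ 2 ≤ Real.exp (L - Real.log (p : ℝ)) := by
      have : z ^ 2 = Real.exp (2 * (25 / 76 * L)) := by
        rw [hz, ← Real.exp_nat_mul]; norm_num
      rw [this]
      exact Real.exp_le_exp.mpr (by rw [hly] at h8; linarith)
    have h11 := (hGEN w z _ hww hwz h9).2 h10
    rw [Real.log_exp (L - Real.log (p : ℝ))] at h11
    exact h11
  -- partial summation
  set ψ : ℝ → ℝ := fun t => f ((L - t) / Real.log z) with hψ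
  have harg : ∀ t ∈ Set.Icc (Real.log z) (Real.log y),
      (L - t) / Real.log z ∈ Set.Icc 2 u := by
    intro t ht
    rw [Set.mem_Icc] at ht ⊢
    rw [hly] at ht
    constructor
    · rw [le_div_iff₀ hlz0, hlz]
      linarith [ht.2]
    · rw [div_le_iff₀ hlz0]
      have h5 : L - t ≤ 4 * Real.log z := by
        rw [hlz] at ht ⊢; linarith [ht.1]
      have h6 : 4 * Real.log z ≤ u * Real.log z := mul_le_mul_of_nonneg_right hu hlz0.le
      linarith
  have hψ0 : ∀ t ∈ Set.Icc (Real.log z) (Real.log y), 0 ≤ ψ t := by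
    intro t ht
    have h5 := harg t ht
    exact (hD.f1 _ h5.1 h5.2).1
  have hψa : AntitoneOn ψ (Set.Icc (Real.log z) (Real.log y)) := by
    intro s hs t ht hst
    apply hD.fm (harg t ht) (harg s hs)
    exact div_le_div_of_nonneg_right (by linarith) hlz0.le
  have hlogdiv : Real.log y / Real.log z = 26 / 25 := by
    rw [hly, hlz]
    field_simp
    norm_num
  have hT := (hPM z y hz2 hzy ψ hψ0 hψa).1
  rw [hlogdiv] at hT
  have hInt : (∫ σ in (0 : ℝ)..Real.log (26 / 25), ψ (Real.exp σ * Real.log z))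
      = ∫ σ in (0 : ℝ)..Real.log (26 / 25), f (76 / 25 - Real.exp σ) := by
    apply intervalIntegral.integral_congr
    intro σ _
    have h5 : (L - Real.exp σ * Real.log z) / Real.log z = 76 / 25 - Real.exp σ := by
      rw [sub_div, mul_div_assoc, div_self hlz0.ne', mul_one]
      congr 1
      rw [hlz]; field_simp
    simp only [hψ, h5]
  rw [hInt] at hT
  have hψ1 : ψ (Real.log z) ≤ 1 := by
    have hin : Real.log z ∈ Set.Icc (Real.log z) (Real.log y) :=
      ⟨le_rfl, Real.log_le_log hz0 hzy⟩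
    have h5 := harg _ hin
    exact (hD.f1 _ h5.1 h5.2).2
  have hCz : 0 < C / Real.log z := div_pos hC hlz0
  have hT' : (∫ σ in (0 : ℝ)..Real.log (26 / 25), f (76 / 25 - Real.exp σ)) - C / Real.log z ≤
      ∑ p ∈ RLS.PP z y, 1 / (p : ℝ) * ψ (Real.log (p : ℝ)) := by
    have h5 : C / Real.log z * ψ (Real.log z) ≤ C / Real.log z * 1 :=
      mul_le_mul_of_nonneg_left hψ1 hCz.le
    linarith
  -- the sum of 1/p
  have hQ : ∑ p ∈ RLS.PP z y, 1 / (p : ℝ) ≤ 1 := by
    have h5 := (hPM z y hz2 hzy (fun _ => 1) (fun _ _ => zero_le_one)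
      (fun _ _ _ _ _ => le_rfl)).2
    rw [hlogdiv] at h5
    simp only [mul_one, intervalIntegral.integral_const, smul_eq_mul, sub_zero] at h5
    have h6 : Real.log (26 / 25) ≤ 1 / 25 := by
      have := Real.log_le_sub_one_of_pos (show (0 : ℝ) < 26 / 25 by norm_num)
      linarith
    have h7 : C / Real.log z ≤ 1 / 2 := by
      rw [div_le_iff₀ hlz0]
      linarith
    linarith
  -- assemble
  have hM := (h2 L z).2.2.1 gi (RLS.PP w y)
  rw [MM_filter1 hz0.le hzy, MM_filter2 hy0.le hwz, MM_Mn] at hM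
  have hsum : Real.log w / Real.log z *
      ((∑ p ∈ RLS.PP z y, 1 / (p : ℝ) * ψ (Real.log (p : ℝ))) -
        e / 4 * ∑ p ∈ RLS.PP z y, 1 / (p : ℝ)) ≤
      ∑ p ∈ RLS.PP z y, gi p * Mn (RLS.lam false (L - Real.log (p : ℝ))) gi (RLS.PP w z) := by
    rw [mul_sum, ← sum_sub_distrib, mul_sum]
    apply sum_le_sum
    intro p hp
    have h5 := hS2 p hp
    rw [MM_Mn]
    have h6 : 0 ≤ 1 / (p : ℝ) := by positivity
    have h7 := mul_le_mul_of_nonneg_left h5 h6
    have h8 : Real.log w / Real.log z * (1 / (p : ℝ) * ψ (Real.log (p : ℝ)) - e / 4 * (1 / (p : ℝ)))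
        = 1 / (p : ℝ) * (Real.log w / Real.log z *
          (f ((L - Real.log (p : ℝ)) / Real.log z) - e / 4)) := by
      simp only [hψ]; ring
    rw [h8]
    exact h7
  rw [hM]
  have hfin := MM_num (A := A) (e := e) (lw := Real.log w) (L := L) (lz := Real.log z)
    (Fs := F (76 / 25)) (I := ∫ σ in (0 : ℝ)..Real.log (26 / 25), f (76 / 25 - Real.exp σ))
    (Q := ∑ p ∈ RLS.PP z y, 1 / (p : ℝ))
    (T := ∑ p ∈ RLS.PP z y, 1 / (p : ℝ) * ψ (Real.log (p : ℝ))) (ep := e / 4) (C := C)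
    hD.A3 he hL hlw hlz (by linarith) hN1 rfl hN2 hT' hQ
  linarith

end Pool.Agent.MK
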